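import Mathlib
import Pool.Agent.Lib.MP_a38fe7_co.Count

/-!
# Exponentially many trees are distinguished by the orders of their iterated line graphs
-/

set_option autoImplicit false

namespace Pool.Agent.Results.MP_a38fe7_co.ExponentiallyManyTrees

/-- For every `n ≥ 1` there are at least `2 ^ ⌊n / 2⌋ / (4 n)` trees on `n` vertices which are pairwise
distinguished by the numbers of vertices of their `k`-th iterated line graphs, `k ≤ n / 4 + 2`. -/
theorem result (n : ℕ) (hn : 1 ≤ n) :
    ∃ F : Finset (SimpleGraph (Fin n)),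
      (∀ G ∈ F, G.IsTree) ∧
      (∀ G ∈ F, ∀ H ∈ F,
        (∀ k ≤ n / 4 + 2,
          Nat.card ((fun p : (Σ X : Type, SimpleGraph X) =>
              (⟨↥p.2.edgeSet, p.2.lineGraph⟩ : Σ X : Type, SimpleGraph X))^[k] ⟨Fin n, G⟩).1
            = Nat.card ((fun p : (Σ X : Type, SimpleGraph X) =>
              (⟨↥p.2.edgeSet, p.2.lineGraph⟩ : Σ X : Type, SimpleGraph X))^[k] ⟨Fin n, H⟩).1) →
        G = H) ∧
      2 ^ (n / 2) ≤ 4 * n * F.card :=
  Pool.Agent.Lib.MP_a38fe7_co.count n hn

end Pool.Agent.Results.MP_a38fe7_co.ExponentiallyManyTrees
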