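import Mathlib
import Pool.Agent.Lib.MP_a38fe7_co.Class

/-!
# Graham's conjecture for graphs with a long tail and even decorations
-/

set_option autoImplicit false

namespace Pool.Agent.Results.MP_a38fe7_co.LongTail

open Pool.Agent.Lib.MP_a38fe7_co

/-- `deco L D S R ρ a` is the path with the vertices `0, …, L - 1`, whose last vertex is joined to the
vertices in `S` of the graph `D`, with `2 * a i` copies of the rooted graph `(R, ρ)` attached at each
vertex `i < L` of the path (by an edge from `i` to the root). If `2 * M + 2 ≤ L`, `a` and `b` differ at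
most at the places `i ≤ M`, and the `k`-th iterated line graphs have the same number of vertices for all
`k ≤ M + 2`, then `a = b`. -/
theorem result {U W : Type} [Finite U] [Finite W] (L M : ℕ) (hL : 2 * M + 2 ≤ L)
    (D : SimpleGraph U) (S : Set U) (R : SimpleGraph W) (ρ : W) (a b : ℕ → ℕ)
    (hab : ∀ i, a i ≠ b i → i ≤ M)
    (h : ∀ k ≤ M + 2,
      Nat.card ((fun p : (Σ X : Type, SimpleGraph X) =>
          (⟨↥p.2.edgeSet, p.2.lineGraph⟩ : Σ X : Type, SimpleGraph X))^[k]
            ⟨_, deco L D S R ρ a⟩).1
        = Nat.card ((fun p : (Σ X : Type, SimpleGraph X) =>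
          (⟨↥p.2.edgeSet, p.2.lineGraph⟩ : Σ X : Type, SimpleGraph X))^[k]
            ⟨_, deco L D S R ρ b⟩).1) :
    a = b :=
  main_class L M hL D S R ρ a b hab h

end Pool.Agent.Results.MP_a38fe7_co.LongTail
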