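import Mathlib
import Pool.Agent.Lib.MP_a38fe7_coS.Main2

/-!
# Graham's conjecture for starlike trees
-/

set_option autoImplicit false

namespace Pool.Agent.Results.MP_a38fe7_co.StarlikeTrees

open Pool.Agent.Lib.MP_a38fe7_coS

/-- Let `T` be a starlike tree: a finite tree in which all vertices except possibly one have degree at
most two (a spider; paths are included). Let `T'` be any finite tree. If the `k`-th iterated line graphs of
`T` and `T'` have the same number of vertices for `k = 0, …, 4`, then `T'` is starlike. If they have the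
same number of vertices for all `k`, then `T` and `T'` are isomorphic. -/
theorem result {V W : Type} [Finite V] [Finite W] (T : SimpleGraph V) (T' : SimpleGraph W)
    (hT : T.IsTree) (hT' : T'.IsTree)
    (hs : ∃ h, ∀ v, v ≠ h → (T.neighborSet v).ncard ≤ 2) :
    ((∀ k ≤ 4,
        Nat.card ((fun p : (Σ X : Type, SimpleGraph X) =>
          (⟨↥p.2.edgeSet, p.2.lineGraph⟩ : Σ X : Type, SimpleGraph X))^[k] ⟨V, T⟩).1
        = Nat.card ((fun p : (Σ X : Type, SimpleGraph X) =>
          (⟨↥p.2.edgeSet, p.2.lineGraph⟩ : Σ X : Type, SimpleGraph X))^[k] ⟨W, T'⟩).1) →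
      ∃ h', ∀ w, w ≠ h' → (T'.neighborSet w).ncard ≤ 2) ∧
    ((∀ k,
        Nat.card ((fun p : (Σ X : Type, SimpleGraph X) =>
          (⟨↥p.2.edgeSet, p.2.lineGraph⟩ : Σ X : Type, SimpleGraph X))^[k] ⟨V, T⟩).1
        = Nat.card ((fun p : (Σ X : Type, SimpleGraph X) =>
          (⟨↥p.2.edgeSet, p.2.lineGraph⟩ : Σ X : Type, SimpleGraph X))^[k] ⟨W, T'⟩).1) →
      Nonempty (T ≃g T')) := by
  refine ⟨fun hσ => ?_, fun hσ => main2 T T' hT hT' hs hσ⟩
  obtain ⟨h, hs⟩ := hs
  by_contra hn
  exact nonstar_false2 T T' hT hT' h hs hn hσ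

end Pool.Agent.Results.MP_a38fe7_co.StarlikeTrees
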